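import Mathlib

set_option autoImplicit false

namespace Pool.Agent.H.MP_409c19_co

abbrev V3 := Fin 3 → ℝ

def dt (x y : V3) : ℝ := x 0 * y 0 + x 1 * y 1 + x 2 * y 2
def Pr (x : V3) (a b c : ℝ) : Prop := ∃ k : ℝ, k ≠ 0 ∧ x 0 = k * a ∧ x 1 = k * b ∧ x 2 = k * c
def NZ (x : V3) : Prop := ¬ (x 0 = 0 ∧ x 1 = 0 ∧ x 2 = 0)
def CR (u v : V3) : Prop :=
  ¬ (u 1 * v 2 - u 2 * v 1 = 0 ∧ u 2 * v 0 - u 0 * v 2 = 0 ∧ u 0 * v 1 - u 1 * v 0 = 0)

lemma dt_comm (x y : V3) : dt x y = dt y x := by unfold dt; ring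

lemma nz_of {x y : V3} (h : dt x y ≠ 0) : NZ x := by
  rintro ⟨a, b, c⟩; apply h; unfold dt; rw [a, b, c]; ring

lemma cr_of {u v m : V3} (hu : NZ u) (h1 : dt m u = 0) (h2 : dt m v ≠ 0) : CR u v := by
  rintro ⟨a, b, c⟩
  apply hu
  unfold dt at h1 h2
  refine ⟨mul_left_cancel₀ h2 ?_, mul_left_cancel₀ h2 ?_, mul_left_cancel₀ h2 ?_⟩
  · linear_combination v 0 * h1 + m 1 * c - m 2 * b
  · linear_combination v 1 * h1 + m 2 * a - m 0 * c
  · linear_combination v 2 * h1 + m 0 * b - m 1 * a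

lemma par {x : V3} {g h i : ℝ} (hx : NZ x) (h0 : ¬ (g = 0 ∧ h = 0 ∧ i = 0))
    (e1 : x 1 * i = x 2 * h) (e2 : x 2 * g = x 0 * i) (e3 : x 0 * h = x 1 * g) : Pr x g h i := by
  have hs : g ^ 2 + h ^ 2 + i ^ 2 ≠ 0 := by
    intro hs
    apply h0
    refine ⟨?_, ?_, ?_⟩ <;> nlinarith [sq_nonneg g, sq_nonneg h, sq_nonneg i]
  have a0 : x 0 = (x 0 * g + x 1 * h + x 2 * i) / (g ^ 2 + h ^ 2 + i ^ 2) * g := by
    field_simp; linear_combination h * e3 - i * e2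
  have a1 : x 1 = (x 0 * g + x 1 * h + x 2 * i) / (g ^ 2 + h ^ 2 + i ^ 2) * h := by
    field_simp; linear_combination i * e1 - g * e3
  have a2 : x 2 = (x 0 * g + x 1 * h + x 2 * i) / (g ^ 2 + h ^ 2 + i ^ 2) * i := by
    field_simp; linear_combination g * e2 - h * e1
  refine ⟨_, fun hk => hx ?_, a0, a1, a2⟩
  rw [hk] at a0 a1 a2
  exact ⟨by rw [a0]; ring, by rw [a1]; ring, by rw [a2]; ring⟩

lemma step {x u v : V3} {a b c d e f : ℝ} (k g h i : ℝ) (hu : Pr u a b c) (hv : Pr v d e f)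
    (h1 : dt x u = 0) (h2 : dt x v = 0) (hx : NZ x) (hc : CR u v)
    (e1 : b * f - c * e = k * g) (e2 : c * d - a * f = k * h) (e3 : a * e - b * d = k * i) :
    Pr x g h i := by
  obtain ⟨p, hp, u0, u1, u2⟩ := hu
  obtain ⟨q, hq, v0, v1, v2⟩ := hv
  unfold dt at h1 h2
  unfold CR at hc
  rw [u0, u1, u2] at h1 hc
  rw [v0, v1, v2] at h2 hc
  have h1' : x 0 * a + x 1 * b + x 2 * c = 0 := mul_left_cancel₀ hp (by linear_combination h1)
  have h2' : x 0 * d + x 1 * e + x 2 * f = 0 := mul_left_cancel₀ hq (by linear_combination h2)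
  have hk : k ≠ 0 := by
    rintro rfl
    exact hc ⟨by linear_combination p * q * e1, by linear_combination p * q * e2,
      by linear_combination p * q * e3⟩
  apply par hx
  · rintro ⟨rfl, rfl, rfl⟩
    exact hc ⟨by linear_combination p * q * e1, by linear_combination p * q * e2,
      by linear_combination p * q * e3⟩
  · exact mul_left_cancel₀ hk (by linear_combination a * h2' - d * h1' - x 1 * e3 + x 2 * e2)
  · exact mul_left_cancel₀ hk (by linear_combination b * h2' - e * h1' - x 2 * e1 + x 0 * e3)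
  · exact mul_left_cancel₀ hk (by linear_combination c * h2' - f * h1' - x 0 * e2 + x 1 * e1)

lemma param {x y u v : V3} {a b c d e f : ℝ} (hu : Pr u a b c) (hv : Pr v d e f)
    (h1 : dt y u = 0) (h2 : dt y v = 0) (h3 : dt y x = 0) (hy : NZ y) (hc : CR u v)
    (hx : CR x v) : ∃ s, Pr x (a + s * d) (b + s * e) (c + s * f) := by
  have hy' := step 1 _ _ _ (⟨1, one_ne_zero, (one_mul _).symm, (one_mul _).symm,
    (one_mul _).symm⟩ : Pr u (u 0) (u 1) (u 2)) (⟨1, one_ne_zero, (one_mul _).symm,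
    (one_mul _).symm, (one_mul _).symm⟩ : Pr v (v 0) (v 1) (v 2)) h1 h2 hy hc
    (one_mul _).symm (one_mul _).symm (one_mul _).symm
  obtain ⟨r, hr, y0, y1, y2⟩ := hy'
  unfold dt at h3
  rw [y0, y1, y2] at h3
  obtain ⟨w0, hw0⟩ : ∃ w, w = u 1 * v 2 - u 2 * v 1 := ⟨_, rfl⟩
  obtain ⟨w1, hw1⟩ : ∃ w, w = u 2 * v 0 - u 0 * v 2 := ⟨_, rfl⟩
  obtain ⟨w2, hw2⟩ : ∃ w, w = u 0 * v 1 - u 1 * v 0 := ⟨_, rfl⟩
  unfold CR at hc hx
  rw [← hw0, ← hw1, ← hw2] at h3 hc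
  have h4 : w0 * x 0 + w1 * x 1 + w2 * x 2 = 0 := mul_left_cancel₀ hr (by linear_combination h3)
  have hs : w0 ^ 2 + w1 ^ 2 + w2 ^ 2 ≠ 0 := by
    intro hs
    apply hc
    refine ⟨?_, ?_, ?_⟩ <;> nlinarith [sq_nonneg w0, sq_nonneg w1, sq_nonneg w2]
  obtain ⟨α, hα⟩ : ∃ α, α = ((x 1 * v 2 - x 2 * v 1) * w0 + (x 2 * v 0 - x 0 * v 2) * w1 +
    (x 0 * v 1 - x 1 * v 0) * w2) / (w0 ^ 2 + w1 ^ 2 + w2 ^ 2) := ⟨_, rfl⟩
  obtain ⟨β, hβ⟩ : ∃ β, β = ((u 1 * x 2 - u 2 * x 1) * w0 + (u 2 * x 0 - u 0 * x 2) * w1 +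
    (u 0 * x 1 - u 1 * x 0) * w2) / (w0 ^ 2 + w1 ^ 2 + w2 ^ 2) := ⟨_, rfl⟩
  have x0 : x 0 = α * u 0 + β * v 0 := by
    rw [hα, hβ]; field_simp
    rw [hw0, hw1, hw2] at h4 ⊢
    linear_combination (u 1 * v 2 - u 2 * v 1) * h4
  have x1 : x 1 = α * u 1 + β * v 1 := by
    rw [hα, hβ]; field_simp
    rw [hw0, hw1, hw2] at h4 ⊢
    linear_combination (u 2 * v 0 - u 0 * v 2) * h4
  have x2 : x 2 = α * u 2 + β * v 2 := by
    rw [hα, hβ]; field_simp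
    rw [hw0, hw1, hw2] at h4 ⊢
    linear_combination (u 0 * v 1 - u 1 * v 0) * h4
  have hα0 : α ≠ 0 := by
    rintro rfl
    apply hx
    rw [x0, x1, x2]
    exact ⟨by ring, by ring, by ring⟩
  obtain ⟨p, hp, u0, u1, u2⟩ := hu
  obtain ⟨q, hq, v0, v1, v2⟩ := hv
  refine ⟨β * q / (α * p), α * p, mul_ne_zero hα0 hp, ?_, ?_, ?_⟩
  · rw [x0, u0, v0]; field_simp
  · rw [x1, u1, v1]; field_simp
  · rw [x2, u2, v2]; field_simp

lemma con_iff {x y : V3} {a b c d e f : ℝ} (hx : Pr x a b c) (hy : Pr y d e f) :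
    dt x y = 0 ↔ a * d + b * e + c * f = 0 := by
  obtain ⟨p, hp, u0, u1, u2⟩ := hx
  obtain ⟨q, hq, v0, v1, v2⟩ := hy
  unfold dt
  rw [u0, u1, u2, v0, v1, v2, show p * a * (q * d) + p * b * (q * e) + p * c * (q * f) =
    p * q * (a * d + b * e + c * f) by ring]
  simp [hp, hq]

lemma Pr.congr {x : V3} {a b c d e f : ℝ} (hx : Pr x a b c) (h1 : a = d) (h2 : b = e)
    (h3 : c = f) : Pr x d e f := by rw [← h1, ← h2, ← h3]; exact hx

end Pool.Agent.H.MP_409c19_co
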