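import Pool.Agent.H.MP_409c19_co.Basic

set_option autoImplicit false

namespace Pool.Agent.H.MP_409c19_co

def P0 : Fin 21 → ℤ × ℤ × ℤ := ![(-1, -1, 0), (1, 0, 0), (9, 5, 10), (-1, -1, -2), (-9, -4, -8), (0, 0, 1), (12, 7, 8), (0, 1, 0), (1, 1, 1), (-12, -8, -10), (-6, -2, -10), (6, 1, 8), (-4, -2, 0), (-3, -4, -2), (1, 0, 2), (-3, -2, 2), (-3, -2, -2), (4, 2, 2), (-4, -3, -4), (1, 0, 1), (-4, -2, -8)]
def L0 : Fin 21 → ℤ × ℤ × ℤ := ![(10, -10, -4), (0, 0, 1), (8, -8, -5), (-1, 1, 0), (0, 2, -1), (10, -4, -7), (0, -1, 0), (4, -7, -1), (-10, 16, 1), (2, 0, -1), (-2, 4, -1), (0, -1, 1), (4, -1, -4), (-2, 8, -4), (1, 0, -1), (2, 4, -2), (2, -4, 0), (2, -3, 0), (-2, 0, 3), (2, -1, -1), (2, -4, -1)]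

def Inc (i j : Fin 21) : Prop :=
  (P0 i).1 * (L0 j).1 + (P0 i).2.1 * (L0 j).2.1 + (P0 i).2.2 * (L0 j).2.2 = 0

instance (i j : Fin 21) : Decidable (Inc i j) := by unfold Inc; infer_instance

lemma exP : ∀ i, ∃ j, ¬ Inc i j := by decide +kernel
lemma exL : ∀ j, ∃ i, ¬ Inc i j := by decide +kernel
lemma sepP : ∀ i i', i ≠ i' → ∃ j, Inc i j ∧ ¬ Inc i' j := by decide +kernel
lemma sepL : ∀ j j', j ≠ j' → ∃ i, Inc i j ∧ ¬ Inc i j' := by decide +kernel

lemma gen (p l : Fin 21 → V3) (H : ∀ i j, dt (p i) (l j) = 0 ↔ Inc i j) :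
    (∀ i, NZ (p i)) ∧ (∀ j, NZ (l j)) ∧ (∀ i i', i ≠ i' → CR (p i) (p i')) ∧
    (∀ j j', j ≠ j' → CR (l j) (l j')) := by
  have zp : ∀ i, NZ (p i) := fun i => by
    obtain ⟨j, h⟩ := exP i; exact nz_of fun h' => h ((H i j).1 h')
  have zl : ∀ j, NZ (l j) := fun j => by
    obtain ⟨i, h⟩ := exL j; exact nz_of fun h' => h ((H i j).1 (by rw [dt_comm]; exact h'))
  refine ⟨zp, zl, fun i i' h => ?_, fun j j' h => ?_⟩
  · obtain ⟨j, h1, h2⟩ := sepP i i' h
    exact cr_of (m := l j) (zp i) (by rw [dt_comm]; exact (H i j).2 h1)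
      (by rw [dt_comm]; exact fun h' => h2 ((H i' j).1 h'))
  · obtain ⟨i, h1, h2⟩ := sepL j j' h
    exact cr_of (m := p i) (zl j) ((H i j).2 h1) (fun h' => h2 ((H i j').1 h'))

theorem normal (p l : Fin 21 → V3) (H : ∀ i j, dt (p i) (l j) = 0 ↔ Inc i j)
    (o1 : Pr (p 1) 1 0 0) (o7 : Pr (p 7) 0 1 0) (o5 : Pr (p 5) 0 0 1) (o8 : Pr (p 8) 1 1 1) :
    ∀ i, Pr (p i) (P0 i).1 (P0 i).2.1 (P0 i).2.2 := by
  obtain ⟨zp, zl, cp, cl⟩ := gen p l H
  have hp : ∀ i j, Inc i j → dt (p i) (l j) = 0 := fun i j h => (H i j).2 h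
  have hl : ∀ i j, Inc i j → dt (l j) (p i) = 0 := fun i j h => by rw [dt_comm]; exact (H i j).2 h
  have hn : ∀ i j, ¬ Inc i j → dt (p i) (l j) ≠ 0 := fun i j h h' => h ((H i j).1 h')
  have o22 := step ((1)) 0 0 ((1)) o1 o7 (hl 1 1 (by decide)) (hl 7 1 (by decide)) (zl 1) (cp 1 7 (by decide))
    (by ring) (by ring) (by ring)
  have o24 := step ((1)) ((-1)) ((1)) 0 o5 o8 (hl 5 3 (by decide)) (hl 8 3 (by decide)) (zl 3) (cp 5 8 (by decide))
    (by ring) (by ring) (by ring)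
  have o0 := step ((1)) ((-1)) ((-1)) 0 o22 o24 (hp 0 1 (by decide)) (hp 0 3 (by decide)) (zp 0) (cl 1 3 (by decide))
    (by ring) (by ring) (by ring)
  have o27 := step ((1)) 0 ((-1)) 0 o1 o5 (hl 1 6 (by decide)) (hl 5 6 (by decide)) (zl 6) (cp 1 5 (by decide))
    (by ring) (by ring) (by ring)
  have o32 := step ((1)) 0 ((-1)) ((1)) o1 o8 (hl 1 11 (by decide)) (hl 8 11 (by decide)) (zl 11) (cp 1 8 (by decide))
    (by ring) (by ring) (by ring)
  have o35 := step ((1)) ((1)) 0 ((-1)) o7 o8 (hl 7 14 (by decide)) (hl 8 14 (by decide)) (zl 14) (cp 7 8 (by decide))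
    (by ring) (by ring) (by ring)
  have o19 := step ((1)) ((1)) 0 ((1)) o27 o35 (hp 19 6 (by decide)) (hp 19 14 (by decide)) (zp 19) (cl 6 14 (by decide))
    (by ring) (by ring) (by ring)
  obtain ⟨s, o33⟩ := param o27 o35 (hp 19 6 (by decide)) (hp 19 14 (by decide)) (hp 19 12 (by decide)) (zp 19) (cl 6 14 (by decide)) (cl 12 14 (by decide))
  obtain ⟨t, o39⟩ := param o22 o35 (hp 7 1 (by decide)) (hp 7 14 (by decide)) (hp 7 18 (by decide)) (zp 7) (cl 1 14 (by decide)) (cl 18 14 (by decide))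
  have o16 := step ((1)) ((1) * t + (-1)) ((1) * t) ((1) * t) o32 o39 (hp 16 11 (by decide)) (hp 16 18 (by decide)) (zp 16) (cl 11 18 (by decide))
    (by ring) (by ring) (by ring)
  have o38 := step ((1)) ((-1) * t) ((1) * t + (-1)) 0 o5 o16 (hl 5 17 (by decide)) (hl 16 17 (by decide)) (zl 17) (cp 5 16 (by decide))
    (by ring) (by ring) (by ring)
  have o9 := step ((1)) ((1) * s * t + (-1) * s) ((1) * s * t) ((1) * s * t + (-1) * s + (-1) * t) o33 o38 (hp 9 12 (by decide)) (hp 9 17 (by decide)) (zp 9) (cl 12 17 (by decide))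
    (by ring) (by ring) (by ring)
  have o13 := step ((1)) ((1) * t + (-1)) ((-1) * s) ((1) * t) o33 o39 (hp 13 12 (by decide)) (hp 13 18 (by decide)) (zp 13) (cl 12 18 (by decide))
    (by ring) (by ring) (by ring)
  have o40 := step ((1)) ((1) * s + (1) * t) ((-1)) ((-1) * s + (-1) * t + (1)) o8 o13 (hl 8 19 (by decide)) (hl 13 19 (by decide)) (zl 19) (cp 8 13 (by decide))
    (by ring) (by ring) (by ring)
  have o14 := step ((1)) ((1) * s + (1) * t + (-1)) 0 ((1) * s + (1) * t) o27 o40 (hp 14 6 (by decide)) (hp 14 19 (by decide)) (zp 14) (cl 6 19 (by decide))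
    (by ring) (by ring) (by ring)
  have o30 := step ((1)) ((1) * s + (1) * t) 0 ((-1) * s + (-1) * t + (1)) o7 o14 (hl 7 9 (by decide)) (hl 14 9 (by decide)) (zl 9) (cp 7 14 (by decide))
    (by ring) (by ring) (by ring)
  have o3 := step ((1)) ((-1) * s + (-1) * t + (1)) ((-1) * s + (-1) * t + (1)) ((-1) * s + (-1) * t) o24 o30 (hp 3 3 (by decide)) (hp 3 9 (by decide)) (zp 3) (cl 3 9 (by decide))
    (by ring) (by ring) (by ring)
  have o25 := step ((1)) 0 ((1) * s + (1) * t) ((-1) * s + (-1) * t + (1)) o1 o3 (hl 1 4 (by decide)) (hl 3 4 (by decide)) (zl 4) (cp 1 3 (by decide))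
    (by ring) (by ring) (by ring)
  have o4 := step ((1)) ((-1) * s * s + (-1) * s * t + (-1) * s + (-1) * t + (1)) ((-1) * s * s + (-1) * s * t + (1) * s) ((-1) * s * s + (-1) * s * t) o25 o33 (hp 4 4 (by decide)) (hp 4 12 (by decide)) (zp 4) (cl 4 12 (by decide))
    (by ring) (by ring) (by ring)
  have o21 := step ((1)) ((-1) * s * t + (1) * s + (1) * t) ((1) * s * t + (-1) * s + (-1) * t) ((-1) * s) o0 o9 (hl 0 0 (by decide)) (hl 9 0 (by decide)) (zl 0) (cp 0 9 (by decide))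
    (by ring) (by ring) (by ring)
  have o23 := step ((1)) ((1) * s * s + (1) * s * t) ((-1) * s * s + (-1) * s * t) ((-2) * s + (-1) * t + (1)) o0 o4 (hl 0 2 (by decide)) (hl 4 2 (by decide)) (zl 2) (cp 0 4 (by decide))
    (by ring) (by ring) (by ring)
  have o31 := step ((1)) ((1) * t) ((1) * s) ((-1) * s + (-1) * t + (1)) o3 o16 (hl 3 10 (by decide)) (hl 16 10 (by decide)) (zl 10) (cp 3 16 (by decide))
    (by ring) (by ring) (by ring)
  have o12 := step ((1)) ((-1) * s) ((1) * t) 0 o22 o31 (hp 12 1 (by decide)) (hp 12 10 (by decide)) (zp 12) (cl 1 10 (by decide))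
    (by ring) (by ring) (by ring)
  have o18 := step ((1)) ((-1) * s) ((-1) * s + (1)) ((-1) * s) o31 o35 (hp 18 10 (by decide)) (hp 18 14 (by decide)) (zp 18) (cl 10 14 (by decide))
    (by ring) (by ring) (by ring)
  have o37 := step ((1)) ((-1) * t) ((-1) * s) 0 o5 o12 (hl 5 16 (by decide)) (hl 12 16 (by decide)) (zl 16) (cp 5 12 (by decide))
    (by ring) (by ring) (by ring)
  have o17 := step ((1)) ((1) * s) ((-1) * t) ((-1) * t) o32 o37 (hp 17 11 (by decide)) (hp 17 16 (by decide)) (zp 17) (cl 11 16 (by decide))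
    (by ring) (by ring) (by ring)
  have o20 := step ((1)) ((-1) * s * s + (-1) * s * t + (1) * s) ((1) * s * t + (1) * t * t + (-1) * t) ((-1) * s * s + (-1) * s * t) o30 o37 (hp 20 9 (by decide)) (hp 20 16 (by decide)) (zp 20) (cl 9 16 (by decide))
    (by ring) (by ring) (by ring)
  have o26 := step ((1)) ((1) * s * s + (1) * s * t + (-1) * t) ((-1) * s) ((-1) * s * s + (-1) * s * t + (1) * s + (1) * t + (-1)) o13 o18 (hl 13 5 (by decide)) (hl 18 5 (by decide)) (zl 5) (cp 13 18 (by decide))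
    (by ring) (by ring) (by ring)
  have o34 := step ((1)) ((1) * t) ((1) * s * s + (1) * s * t) ((-1) * s * s + (-1) * s * t + (1) * s) o17 o18 (hl 17 13 (by decide)) (hl 18 13 (by decide)) (zl 13) (cp 17 18 (by decide))
    (by ring) (by ring) (by ring)
  have c0 := (con_iff o9 o34).1 (hp 9 13 (by decide))
  have n0_0 : ((1) * s) ≠ 0 := fun h => hn 1 12 (by decide) ((con_iff o1 o33).2 (by linear_combination ((1)) * h))
  have n0_1 : ((1) * s + (1) * t + (-1)) ≠ 0 := fun h => hn 5 19 (by decide) ((con_iff o5 o40).2 (by linear_combination ((-1)) * h))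
  have e0 : t = ((-1 / 2) * s) := mul_left_cancel₀ (mul_ne_zero n0_0 n0_1) (by linear_combination (1 / 2) * c0)
  subst e0
  have o36 := step ((1 / 4) * s) ((1) * s + (-2)) ((4)) ((-1) * s + (2)) o19 o20 (hl 19 15 (by decide)) (hl 20 15 (by decide)) (zl 15) (cp 19 20 (by decide))
    (by ring) (by ring) (by ring)
  have o10 := step ((1)) ((-3) * s + (6)) ((-1) * s + (2)) ((-3) * s + (2)) o36 o40 (hp 10 15 (by decide)) (hp 10 19 (by decide)) (zp 10) (cl 15 19 (by decide))
    (by ring) (by ring) (by ring)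
  have c1 := (con_iff o10 o21).1 (hp 10 0 (by decide))
  have n1_0 : ((1) * s) ≠ 0 := fun h => hn 1 12 (by decide) ((con_iff o1 o33).2 (by linear_combination ((1)) * h))
  have n1_1 : ((1) * s) ≠ 0 := fun h => hn 1 12 (by decide) ((con_iff o1 o33).2 (by linear_combination ((1)) * h))
  have e1 : s = ((4)) := mul_left_cancel₀ (mul_ne_zero n1_0 n1_1) (by linear_combination (-1 / 1) * c1)
  subst e1
  have o2 := step ((2)) ((9)) ((5)) ((10)) o21 o25 (hp 2 0 (by decide)) (hp 2 4 (by decide)) (zp 2) (cl 0 4 (by decide))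
    (by ring) (by ring) (by ring)
  have o6 := step ((6)) ((12)) ((7)) ((8)) o23 o34 (hp 6 2 (by decide)) (hp 6 13 (by decide)) (zp 6) (cl 2 13 (by decide))
    (by ring) (by ring) (by ring)
  have o11 := step ((6)) ((6)) ((1)) ((8)) o23 o26 (hp 11 2 (by decide)) (hp 11 5 (by decide)) (zp 11) (cl 2 5 (by decide))
    (by ring) (by ring) (by ring)
  have o28 := step ((6)) ((4)) ((-7)) ((-1)) o4 o10 (hl 4 7 (by decide)) (hl 10 7 (by decide)) (zl 7) (cp 4 10 (by decide))
    (by ring) (by ring) (by ring)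
  have o15 := step ((1)) ((-3)) ((-2)) ((2)) o28 o38 (hp 15 7 (by decide)) (hp 15 17 (by decide)) (zp 15) (cl 7 17 (by decide))
    (by ring) (by ring) (by ring)
  have o29 := step ((3)) ((-10)) ((16)) ((1)) o2 o6 (hl 2 8 (by decide)) (hl 6 8 (by decide)) (zl 8) (cp 2 6 (by decide))
    (by ring) (by ring) (by ring)
  have o41 := step ((8)) ((2)) ((-4)) ((-1)) o11 o12 (hl 11 20 (by decide)) (hl 12 20 (by decide)) (zl 20) (cp 11 12 (by decide))
    (by ring) (by ring) (by ring)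
  intro i
  fin_cases i
  · exact o0.congr (by norm_num [P0]) (by norm_num [P0]) (by norm_num [P0])
  · exact o1.congr (by norm_num [P0]) (by norm_num [P0]) (by norm_num [P0])
  · exact o2.congr (by norm_num [P0]) (by norm_num [P0]) (by norm_num [P0])
  · exact o3.congr (by norm_num [P0]) (by norm_num [P0]) (by norm_num [P0])
  · exact o4.congr (by norm_num [P0]) (by norm_num [P0]) (by norm_num [P0])
  · exact o5.congr (by norm_num [P0]) (by norm_num [P0]) (by norm_num [P0])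
  · exact o6.congr (by norm_num [P0]) (by norm_num [P0]) (by norm_num [P0])
  · exact o7.congr (by norm_num [P0]) (by norm_num [P0]) (by norm_num [P0])
  · exact o8.congr (by norm_num [P0]) (by norm_num [P0]) (by norm_num [P0])
  · exact o9.congr (by norm_num [P0]) (by norm_num [P0]) (by norm_num [P0])
  · exact o10.congr (by norm_num [P0]) (by norm_num [P0]) (by norm_num [P0])
  · exact o11.congr (by norm_num [P0]) (by norm_num [P0]) (by norm_num [P0])
  · exact o12.congr (by norm_num [P0]) (by norm_num [P0]) (by norm_num [P0])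
  · exact o13.congr (by norm_num [P0]) (by norm_num [P0]) (by norm_num [P0])
  · exact o14.congr (by norm_num [P0]) (by norm_num [P0]) (by norm_num [P0])
  · exact o15.congr (by norm_num [P0]) (by norm_num [P0]) (by norm_num [P0])
  · exact o16.congr (by norm_num [P0]) (by norm_num [P0]) (by norm_num [P0])
  · exact o17.congr (by norm_num [P0]) (by norm_num [P0]) (by norm_num [P0])
  · exact o18.congr (by norm_num [P0]) (by norm_num [P0]) (by norm_num [P0])
  · exact o19.congr (by norm_num [P0]) (by norm_num [P0]) (by norm_num [P0])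
  · exact o20.congr (by norm_num [P0]) (by norm_num [P0]) (by norm_num [P0])

end Pool.Agent.H.MP_409c19_co
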