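import Pool.Agent.H.MP_409c19_co.Chain

set_option autoImplicit false

namespace Pool.Agent.H.MP_409c19_co

open Matrix

def tr (u v w : V3) : ℝ := (u 1 * v 2 - u 2 * v 1) * w 0 + (u 2 * v 0 - u 0 * v 2) * w 1 +
  (u 0 * v 1 - u 1 * v 0) * w 2

lemma tr_ne {u v w m : V3} (h1 : dt m u = 0) (h2 : dt m v = 0) (h3 : dt m w ≠ 0) (hc : CR u v) :
    tr u v w ≠ 0 := by
  obtain ⟨r, -, y0, y1, y2⟩ := step 1 _ _ _ (⟨1, one_ne_zero, (one_mul _).symm, (one_mul _).symm,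
    (one_mul _).symm⟩ : Pr u (u 0) (u 1) (u 2)) (⟨1, one_ne_zero, (one_mul _).symm,
    (one_mul _).symm, (one_mul _).symm⟩ : Pr v (v 0) (v 1) (v 2)) h1 h2 (nz_of h3) hc
    (one_mul _).symm (one_mul _).symm (one_mul _).symm
  intro h
  apply h3
  unfold dt
  unfold tr at h
  rw [y0, y1, y2]
  linear_combination r * h

theorem frame (p l : Fin 21 → V3) (H : ∀ i j, dt (p i) (l j) = 0 ↔ Inc i j) :
    ∃ B : V3 ≃ₗ[ℝ] V3, ∀ i, Pr (B.symm (p i)) (P0 i).1 (P0 i).2.1 (P0 i).2.2 := by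
  obtain ⟨-, -, cp, -⟩ := gen p l H
  have hl : ∀ i j, Inc i j → dt (l j) (p i) = 0 := fun i j h => by rw [dt_comm]; exact (H i j).2 h
  have hn : ∀ i j, ¬ Inc i j → dt (l j) (p i) ≠ 0 := fun i j h h' =>
    h ((H i j).1 (by rw [dt_comm]; exact h'))
  have t1 := tr_ne (hl 1 1 (by decide)) (hl 7 1 (by decide)) (hn 5 1 (by decide)) (cp 1 7 (by decide))
  have t2 := tr_ne (hl 1 1 (by decide)) (hl 7 1 (by decide)) (hn 8 1 (by decide)) (cp 1 7 (by decide))
  have t3 := tr_ne (hl 5 3 (by decide)) (hl 8 3 (by decide)) (hn 1 3 (by decide)) (cp 5 8 (by decide))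
  have t4 := tr_ne (hl 5 3 (by decide)) (hl 8 3 (by decide)) (hn 7 3 (by decide)) (cp 5 8 (by decide))
  obtain ⟨α, hα⟩ : ∃ α, α = tr (p 5) (p 8) (p 7) / tr (p 1) (p 7) (p 5) := ⟨_, rfl⟩
  obtain ⟨β, hβ⟩ : ∃ β, β = - tr (p 5) (p 8) (p 1) / tr (p 1) (p 7) (p 5) := ⟨_, rfl⟩
  obtain ⟨γ, hγ⟩ : ∃ γ, γ = tr (p 1) (p 7) (p 8) / tr (p 1) (p 7) (p 5) := ⟨_, rfl⟩
  have a0 : α ≠ 0 := hα ▸ div_ne_zero t4 t1
  have b0 : β ≠ 0 := hβ ▸ div_ne_zero (neg_ne_zero.2 t3) t1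
  have c0 : γ ≠ 0 := hγ ▸ div_ne_zero t2 t1
  have hsum : ∀ k, α * p 1 k + β * p 7 k + γ * p 5 k = p 8 k := by
    intro k
    rw [hα, hβ, hγ]
    field_simp
    unfold tr
    fin_cases k <;> simp <;> ring
  let N : Matrix (Fin 3) (Fin 3) ℝ := Matrix.of fun r c => ![α * p 1 r, β * p 7 r, γ * p 5 r] c
  have hN : ∀ x r, (N *ᵥ x) r = α * p 1 r * x 0 + β * p 7 r * x 1 + γ * p 5 r * x 2 := by
    intro x r
    simp [N, mulVec, dotProduct, Fin.sum_univ_three]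
  have hdet : N.det ≠ 0 := by
    have : N.det = α * β * γ * tr (p 1) (p 7) (p 5) := by
      rw [Matrix.det_fin_three]; simp [N, tr]; ring
    rw [this]
    exact mul_ne_zero (mul_ne_zero (mul_ne_zero a0 b0) c0) t1
  have hinj : Function.Injective (Matrix.toLin' N) := by
    rw [injective_iff_map_eq_zero]
    intro x hx
    exact Matrix.eq_zero_of_mulVec_eq_zero hdet hx
  let B := LinearEquiv.ofInjectiveEndo (Matrix.toLin' N) hinj
  have hB : ∀ x, B x = N *ᵥ x := fun x => rfl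
  have hs : ∀ (i) (x : V3), N *ᵥ x = p i → B.symm (p i) = x := fun i x h => by
    rw [LinearEquiv.symm_apply_eq, hB, h]
  refine ⟨B, normal (fun i => B.symm (p i)) (fun j => Nᵀ *ᵥ l j) (fun i j => ?_) ?_ ?_ ?_ ?_⟩
  · rw [← H i j]
    have e : p i = N *ᵥ B.symm (p i) := by rw [← hB, LinearEquiv.apply_symm_apply]
    generalize B.symm (p i) = x at e
    rw [e]
    have : dt x (Nᵀ *ᵥ l j) = dt (N *ᵥ x) (l j) := by
      simp only [dt, mulVec, dotProduct, Fin.sum_univ_three, transpose_apply]; ring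
    rw [this]
  · rw [hs 1 ![α⁻¹, 0, 0] (by funext r; rw [hN]; simp; field_simp)]
    exact ⟨α⁻¹, inv_ne_zero a0, by simp, by simp, by simp⟩
  · rw [hs 7 ![0, β⁻¹, 0] (by funext r; rw [hN]; simp; field_simp)]
    exact ⟨β⁻¹, inv_ne_zero b0, by simp, by simp, by simp⟩
  · rw [hs 5 ![0, 0, γ⁻¹] (by funext r; rw [hN]; simp; field_simp)]
    exact ⟨γ⁻¹, inv_ne_zero c0, by simp, by simp, by simp⟩
  · rw [hs 8 ![1, 1, 1] (by funext r; rw [hN, ← hsum r]; simp)]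
    exact ⟨1, one_ne_zero, by simp, by simp, by simp⟩

lemma pt_vec (P : Submodule ℝ V3) (h : Module.finrank ℝ P = 1) :
    ∃ v : V3, P = Submodule.span ℝ {v} := by
  have : P ≠ ⊥ := by rintro rfl; simp at h
  obtain ⟨v, hv, h0⟩ := Submodule.exists_mem_ne_zero_of_ne_bot this
  exact ⟨v, (Submodule.eq_of_le_of_finrank_eq (by simpa using hv)
    (by rw [finrank_span_singleton h0, h])).symm⟩

lemma ker_rank (f : V3 →ₗ[ℝ] ℝ) (hf : f ≠ 0) : Module.finrank ℝ (LinearMap.ker f) = 2 := by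
  have := Module.Dual.finrank_ker_add_one_of_ne_zero hf
  simp at this
  omega

lemma ln_vec (L : Submodule ℝ V3) (h : Module.finrank ℝ L = 2) :
    ∃ l : V3, ∀ x, x ∈ L ↔ dt x l = 0 := by
  have : L < ⊤ := by
    rw [lt_top_iff_ne_top]; rintro rfl; simp at h
  obtain ⟨f, hf, hle⟩ := Submodule.exists_le_ker_of_lt_top L this
  have e := Submodule.eq_of_le_of_finrank_eq hle (by rw [ker_rank f hf, h])
  refine ⟨fun k => f fun j => if k = j then 1 else 0, fun x => ?_⟩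
  rw [e, LinearMap.mem_ker, LinearMap.pi_apply_eq_sum_univ f x]
  simp [dt, Fin.sum_univ_three]

def pv (i : Fin 21) : V3 := ![(P0 i).1, (P0 i).2.1, (P0 i).2.2]

lemma span_of {x : V3} {i : Fin 21} (h : Pr x (P0 i).1 (P0 i).2.1 (P0 i).2.2) :
    Submodule.span ℝ {x} = Submodule.span ℝ {pv i} := by
  obtain ⟨k, hk, a, b, c⟩ := h
  have : x = k • pv i := by
    funext r; fin_cases r <;> simp [pv, a, b, c]
  rw [this, Submodule.span_singleton_smul_eq (IsUnit.mk0 k hk)]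

theorem canon (P L : Fin 21 → Submodule ℝ V3) (hP : ∀ i, Module.finrank ℝ (P i) = 1)
    (hL : ∀ j, Module.finrank ℝ (L j) = 2) (H : ∀ i j, P i ≤ L j ↔ Inc i j) :
    ∃ B : V3 ≃ₗ[ℝ] V3, ∀ i, P i = (Submodule.span ℝ {pv i}).map B.toLinearMap := by
  choose p hp using fun i => pt_vec (P i) (hP i)
  choose l hl using fun j => ln_vec (L j) (hL j)
  obtain ⟨B, hB⟩ := frame p l fun i j => by
    rw [← H, hp, Submodule.span_singleton_le_iff_mem, hl]
  refine ⟨B, fun i => ?_⟩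
  rw [← span_of (hB i), Submodule.map_span, hp]
  simp

lemma two : ∀ j, ∃ a b, a ≠ b ∧ Inc a j ∧ Inc b j := by decide +kernel

lemma line_sup (P Q L : Submodule ℝ V3) (hP : Module.finrank ℝ P = 1) (hQ : Module.finrank ℝ Q = 1)
    (hL : Module.finrank ℝ L = 2) (hne : P ≠ Q) (h1 : P ≤ L) (h2 : Q ≤ L) : L = P ⊔ Q := by
  have : P < P ⊔ Q := by
    rw [left_lt_sup]
    intro h
    exact hne (Submodule.eq_of_le_of_finrank_eq h (by rw [hP, hQ])).symm
  have := Submodule.finrank_lt_finrank_of_lt this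
  exact (Submodule.eq_of_le_of_finrank_le (sup_le h1 h2) (by omega)).symm

noncomputable def lf (j : Fin 21) : V3 →ₗ[ℝ] ℝ where
  toFun x := x 0 * (L0 j).1 + x 1 * (L0 j).2.1 + x 2 * (L0 j).2.2
  map_add' x y := by simp; ring
  map_smul' c x := by simp; ring

lemma lf_pv (i j : Fin 21) : lf j (pv i) = 0 ↔ Inc i j := by
  unfold Inc
  simp only [lf, pv, LinearMap.coe_mk, AddHom.coe_mk, Matrix.cons_val_zero, Matrix.cons_val_one,
    Matrix.cons_val]
  norm_cast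

lemma cntP : ∀ i, (Finset.univ.filter fun j => Inc i j).card = 4 := by decide +kernel
lemma cntL : ∀ j, (Finset.univ.filter fun i => Inc i j).card = 4 := by decide +kernel

end Pool.Agent.H.MP_409c19_co
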